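import Pool.Agent.H.MP_ef1120_an.C

set_option autoImplicit false
open Set Filter Topology Cardinal Submodule

namespace Pool.Agent.H.MP_a7a5c5_an

universe u v

variable {X : Type u} [NormedAddCommGroup X] [NormedSpace ℝ X]

lemma qs (F : Set X) : ∃ G : Set X, #G ≤ max ℵ₀ #F ∧ (span ℝ F : Set X) ⊆ closure G := by
  let g := fun l : List (ℚ × F) => (l.map fun p => (p.1 : ℝ) • p.2.1).sum
  refine ⟨range g, mk_range_le.trans ((mk_list_le_max _).trans (max_le (le_max_left _ _) ?_)),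
    fun x hx => ?_⟩
  · simp only [mk_prod, lift_uzero, mk_denumerable, lift_aleph0]
    exact (mul_le_max _ _).trans (max_le le_rfl (le_max_left _ _))
  induction hx using span_induction with
  | mem x hx => exact subset_closure ⟨[(1, ⟨x, hx⟩)], by simp [g]⟩
  | zero => exact subset_closure ⟨[], by simp [g]⟩
  | add x y _ _ hx hy =>
    exact map_mem_closure₂ continuous_add hx hy (by
      rintro _ ⟨a, rfl⟩ _ ⟨b, rfl⟩
      exact ⟨a ++ b, by simp [g]⟩)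
  | smul r x _ hx =>
    exact map_mem_closure₂ continuous_smul (Rat.denseRange_cast r) hx (by
      rintro _ ⟨q, rfl⟩ _ ⟨b, rfl⟩
      exact ⟨b.map fun p => (q * p.1, p.2), by
        simp [g, List.smul_sum, Function.comp_def, mul_smul]⟩)

lemma main {Y : Type v} [NormedAddCommGroup Y] [NormedSpace ℝ Y] [UniformConvexSpace Y]
    (T : X →L[ℝ] Y) {c : ℝ} (c0 : 0 < c) (hc : ∀ x, c * ‖x‖ ≤ ‖T x‖) : ∃ r < 2, 0 < r ∧ ∃ P : Set X,
    (∀ x ∈ P, ∀ y ∈ P, x ≠ y → 2 ≤ ‖x - y‖) ∧ ∀ x, ∃ p ∈ P, ‖x - p‖ ≤ r := by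
  classical
  by_cases hs : TopologicalSpace.SeparableSpace X
  · exact MP_ef1120_an.sep
  obtain ⟨D, dD, hD⟩ := (InvImage.wf (fun D : Set X => #D) Cardinal.lt_wf).has_min
    {D : Set X | Dense D} ⟨univ, dense_univ⟩
  have k0 : ℵ₀ < #D := not_le.1 fun h => hs ⟨D, le_aleph0_iff_set_countable.1 h, dD⟩
  let B := {t : ℝ | ∃ F : Set X, #F < #D ∧ ∀ x, ‖x‖ ≤ 1 → ∃ y ∈ span ℝ F, ‖T (x - y)‖ ≤ t}
  have B1 : ‖T‖ ∈ B := ⟨∅, by simpa using aleph0_pos.trans k0, fun x hx =>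
    ⟨0, zero_mem _, by simpa using T.unit_le_opNorm x hx⟩⟩
  have B2 : ∀ t ∈ B, c / 2 ≤ t := by
    rintro t ⟨F, h1, h2⟩
    obtain ⟨G, g1, g2⟩ := qs F
    obtain ⟨x, -, x1, x2⟩ := riesz_lemma_of_lt_one (span ℝ F).isClosed_topologicalClosure (by
      by_contra! h
      exact hD G (fun x => closure_minimal g2 isClosed_closure (h x))
        (g1.trans_lt (max_lt k0 h1))) (by norm_num : (1 / 2 : ℝ) < 1)
    obtain ⟨y, y1, y2⟩ := h2 x x1.le
    have := x2 y (le_topologicalClosure _ y1)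
    nlinarith [hc (x - y)]
  obtain ⟨δ, d0, hδ⟩ := exists_forall_closed_ball_dist_add_le_two_sub Y (by norm_num : (0 : ℝ) < 1 / 4)
  obtain ⟨η, e0, e1, e2⟩ : ∃ η : ℝ, 0 < η ∧ η ≤ 1 / 4 ∧ 7 * η ≤ δ :=
    ⟨min (1 / 4) (δ / 7), by positivity, min_le_left _ _, by linarith [min_le_right (1 / 4) (δ / 7)]⟩
  obtain ⟨m, m0, ⟨F, f1, f2⟩, hm⟩ : ∃ m : ℝ, 0 < m ∧ m * (1 + η) ∈ B ∧ m * (1 - η) ∉ B := by
    have p : c / 2 ≤ sInf B := le_csInf ⟨_, B1⟩ B2
    obtain ⟨t, ⟨F, f1, f2⟩, ht⟩ := exists_lt_of_csInf_lt ⟨_, B1⟩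
      (by nlinarith : sInf B < sInf B * (1 + η))
    exact ⟨sInf B, by linarith, ⟨F, f1, fun x hx => (f2 x hx).imp fun y h => ⟨h.1, h.2.trans ht.le⟩⟩,
      fun h => by nlinarith [csInf_le ⟨_, B2⟩ h]⟩
  simp only [B, mem_ofPred_eq, not_exists, not_and, not_forall, not_le] at hm
  let E := fun s : Set X => {e | ‖e‖ ≤ 1 ∧ ∀ y ∈ span ℝ (F ∪ s), m * (1 - η) < ‖T (e - y)‖}
  have Em : ∀ {s t}, s ⊆ t → E t ⊆ E s := fun h e he =>
    ⟨he.1, fun y hy => he.2 y (span_mono (union_subset_union_right _ h) hy)⟩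
  let l : Filter X := ⟨{S | ∃ s : Set X, s.Finite ∧ E s ⊆ S}, ⟨∅, finite_empty, subset_univ _⟩,
    fun ⟨s, h1, h2⟩ h => ⟨s, h1, h2.trans h⟩, fun ⟨s, h1, h2⟩ ⟨t, h3, h4⟩ => ⟨s ∪ t, h1.union h3,
      subset_inter ((Em subset_union_left).trans h2) ((Em subset_union_right).trans h4)⟩⟩
  refine MP_ef1120_an.greedy k0.le le_rfl dD (l := l) (fun ι S h1 h2 => ?_) one_pos
    (by rw [lt_div_iff₀ (by positivity)]; linarith : 1 < (1 + 2 * η) / (1 + η))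
    ⟨∅, finite_empty, fun e he => he.1⟩ fun v σ hσ => ⟨{v}, finite_singleton _, fun a ha =>
      ⟨{v, a}, toFinite _, fun b hb => ?_⟩⟩
  · choose s s1 s2 using h2
    obtain ⟨e, e1, e2⟩ := hm (F ∪ ⋃ i, s i) ((mk_union_le _ _).trans_lt (add_lt_of_lt k0.le f1
      (mk_iUnion_le_sum_mk.trans_lt ((sum_le_sum _ (fun _ => ℵ₀) fun i =>
        (s1 i).countable.le_aleph0).trans_lt (by simpa using mul_lt_of_lt k0.le h1 k0)))))
    exact ⟨e, fun i => s2 i (Em (subset_iUnion s i) ⟨e1, e2⟩)⟩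
  change (1 + 2 * η) / (1 + η) ≤ ‖v + (σ / 2) • a + b‖
  refine not_lt.1 fun h => ?_
  obtain ⟨β, hβ⟩ : ∃ β, β = (1 + 2 * η) / (1 + η) := ⟨_, rfl⟩
  rw [← hβ] at h
  have b0 : 0 < β := by rw [hβ]; positivity
  have b1 : β * (m * (1 + η)) = m * (1 + 2 * η) := by rw [hβ]; field_simp
  obtain ⟨y, y1, y2⟩ := f2 (β⁻¹ • (v + (σ / 2) • a + b)) (by
    rw [norm_smul, Real.norm_of_nonneg (by positivity), inv_mul_le_iff₀ b0]; linarith)
  obtain ⟨z, z1, z2⟩ := f2 b hb.1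
  have R0 : 0 < m * (1 + 2 * η) := by positivity
  have n : ∀ x : Y, ‖(m * (1 + 2 * η))⁻¹ • x‖ = (m * (1 + 2 * η))⁻¹ * ‖x‖ := fun x => by
    rw [norm_smul, Real.norm_of_nonneg (by positivity)]
  have sF : ∀ s, span ℝ F ≤ span ℝ (F ∪ s) := fun s => span_mono subset_union_left
  have a1 := ha.2 (-(2 * σ) • (v - β • y + z)) (smul_mem _ _ (add_mem (sub_mem
    (subset_span (by simp)) (smul_mem _ _ (sF _ y1))) (sF _ z1)))
  have a2 := hb.2 ((1 / 2 : ℝ) • (β • y + z - v - (σ / 2) • a)) (smul_mem _ _ (sub_mem (sub_mem (add_mem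
    (smul_mem _ _ (sF _ y1)) (sF _ z1)) (subset_span (by simp))) (smul_mem _ _ (subset_span (by simp)))))
  have := hδ (x := (m * (1 + 2 * η))⁻¹ • T (v + (σ / 2) • a + b - β • y)) (by
      rw [n, inv_mul_le_iff₀ R0, show v + (σ / 2) • a + b - β • y = β • (β⁻¹ • (v + (σ / 2) • a + b) - y) by
        rw [smul_sub, smul_inv_smul₀ b0.ne'], map_smul, norm_smul, Real.norm_of_nonneg b0.le]
      nlinarith)
    (y := (m * (1 + 2 * η))⁻¹ • T (b - z)) (by rw [n, inv_mul_le_iff₀ R0]; nlinarith) (by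
      rw [show a - -(2 * σ) • (v - β • y + z) = (2 * σ) • (v + (σ / 2) • a + b - β • y - (b - z)) by
        rcases hσ with rfl | rfl <;> module, map_smul, norm_smul,
        show ‖2 * σ‖ = 2 by rcases hσ with rfl | rfl <;> simp] at a1
      rw [← smul_sub, n, ← map_sub, le_inv_mul_iff₀ R0]
      nlinarith)
  rw [← smul_add, n, ← map_add, inv_mul_le_iff₀ R0, show v + (σ / 2) • a + b - β • y + (b - z) =
    (2 : ℝ) • (b - (1 / 2 : ℝ) • (β • y + z - v - (σ / 2) • a)) by module, map_smul, norm_smul,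
    Real.norm_two] at this
  nlinarith [mul_pos m0 e0, mul_pos (mul_pos m0 e0) d0, mul_le_mul_of_nonneg_left e2 m0.le]

end Pool.Agent.H.MP_a7a5c5_an
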